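import Mathlib

/-!
# An imprimitive permutation group of degree 36 with relation index 3

Points: `((u, v), w)` with `u, v` in `F_3` and `w` in `F_4` (written `ZMod 2 × ZMod 2`); a block is
the set of points with given `(u, v)`. The group `L` consists of the permutations
`((u, v), w) ↦ ((u + k, v + a u), ω ^ β(u,v) * w + c(u,v))` for which `∑ v, β(u, v)` is a constant
`t` (independent of `u`), and `G` is the subgroup of index `3` of `L` given by `t + ∑ u, a u = 0`.

* Every subset `X` is stabilised by an element of `L` with `t + ∑ u, a u = 1`: if for some `u` all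
  sets `X ∩ block (u, v)` have two elements, rotate the three blocks `(u, ·)`, otherwise rotate one
  block inside itself for each `u`. So `G` and `L` have the same orbits on subsets, and every
  invariance group containing `G` contains `L`.
* `L` is the invariance group of the explicit relation `Rel`. The type (in `F_3`) of a pair of points
  of a block is the direction of their difference; `Rel` contains the blocks, sets which fix the
  cyclic orders of `u` and `v`, and two families of sets which compare the type sums over `v` of the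
  pairs for `u` and for `u + 1`.
-/

set_option autoImplicit false

namespace Pool.Agent.Results.MP_670c4f_al.OddRelationIndex

open Equiv Finset

lemma map_one_eq {Ω : Type*} (x : Finset Ω) : x.map (1 : Perm Ω).toEmbedding = x := by
  have h : (1 : Perm Ω).toEmbedding = Function.Embedding.refl Ω := rfl
  rw [h, Finset.map_refl]

section General

variable {Ω : Type*} [Finite Ω]

/-- The invariance group `𝒢(R)` of a relation `R ⊆ P(Ω)` (a family of subsets of the finite
set `Ω`): all permutations `g` with `x^g ∈ R` for every `x ∈ R`. -/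
def relGroup (R : Set (Finset Ω)) : Subgroup (Perm Ω) where
  carrier := {g | ∀ x ∈ R, x.map g.toEmbedding ∈ R}
  mul_mem' := by
    intro g h hg hh x hx
    have h1 := hg _ (hh x hx)
    rw [Finset.map_map] at h1
    exact h1
  one_mem' := by
    intro x hx
    rw [map_one_eq]; exact hx
  inv_mem' := by
    intro g hg
    have hpow : ∀ n : ℕ, ∀ x ∈ R, x.map (g ^ n).toEmbedding ∈ R := by
      intro n
      induction n with
      | zero =>
        intro x hx
        rw [pow_zero, map_one_eq]; exact hx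
      | succ n ih =>
        intro x hx
        have h1 := hg _ (ih x hx)
        rw [Finset.map_map] at h1
        have h2 : (g ^ n).toEmbedding.trans g.toEmbedding = (g ^ (n + 1)).toEmbedding := by
          ext y
          simp [pow_succ']
        rw [h2] at h1
        exact h1
    have hinv : g⁻¹ = g ^ (orderOf g - 1) := by
      have hpos : 0 < orderOf g := orderOf_pos g
      apply inv_eq_of_mul_eq_one_right
      rw [← pow_succ', Nat.sub_add_cancel hpos, pow_orderOf_eq_one]
    show ∀ x ∈ R, x.map (g⁻¹).toEmbedding ∈ R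
    rw [hinv]
    exact hpow _

/-- The relation index `r(G) = min { |𝒢(R) : G| : R ⊆ P(Ω), G ≤ 𝒢(R) }`. -/
noncomputable def relationIndex (G : Subgroup (Perm Ω)) : ℕ :=
  sInf {n | ∃ R : Set (Finset Ω), G ≤ relGroup R ∧ G.relIndex (relGroup R) = n}

/-- A permutation group is imprimitive if it is transitive and preserves a partition (an
equivalence relation) other than equality and the one-class partition. -/
def Imprimitive (G : Subgroup (Perm Ω)) : Prop :=
  (∀ x y : Ω, ∃ g ∈ G, g x = y) ∧
    ∃ s : Setoid Ω, s ≠ ⊥ ∧ s ≠ ⊤ ∧ ∀ g ∈ G, ∀ x y : Ω, s x y → s (g x) (g y)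

end General

abbrev Z3 := ZMod 3
abbrev B := Z3 × Z3
abbrev V := ZMod 2 × ZMod 2
abbrev Om := B × V

def tau (w : V) : Z3 := if w = (0, 1) then 1 else if w = (1, 1) then 2 else 0

/-- the type of a pair of points of `V = F_4` (the direction of their difference) -/
def ty (P : Finset V) : Z3 := tau (∑ p ∈ P, p)

def rm (m : Z3) (w : V) : V :=
  if m = 0 then w else if m = 1 then (w.2, w.1 + w.2) else (w.1 + w.2, w.1)

def aff (m : Z3) (c : V) : Perm V where
  toFun w := rm m w + c
  invFun w := rm (-m) (w - c)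
  left_inv := by
    intro w
    revert w c m
    decide
  right_inv := by
    intro w
    revert w c m
    decide

lemma ty_aff : ∀ (m : Z3) (c : V) (P : Finset V), P.card = 2 →
    ty (P.image (aff m c)) = ty P + m := by decide +kernel

lemma fixRot : ∀ P : Finset V, P.card ≠ 2 → ∃ c : V, P.image (aff 1 c) = P := by
  decide +kernel

lemma mapPair : ∀ P Q : Finset V, P.card = 2 → Q.card = 2 →
    ∃ c : V, P.image (aff (ty Q - ty P) c) = Q := by decide +kernel

lemma exPair : ∀ x : Z3, ∃ P : Finset V, P.card = 2 ∧ ty P = x := by decide +kernel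

/-- the fibre of `X` over the block `b` -/
def fib (X : Finset Om) (b : B) : Finset V := univ.filter (fun w => (b, w) ∈ X)

lemma mem_fib {X : Finset Om} {b : B} {w : V} : w ∈ fib X b ↔ (b, w) ∈ X := by
  simp [fib]

lemma ext_fib {X Y : Finset Om} (h : ∀ b, fib X b = fib Y b) : X = Y := by
  ext ⟨b, w⟩
  rw [← mem_fib, ← mem_fib, h]

lemma card_fib (X : Finset Om) : X.card = ∑ b, (fib X b).card := by
  have h1 := Finset.card_eq_sum_card_fiberwise (s := X) (t := (univ : Finset B))
    (f := Prod.fst) (fun x _ => Finset.mem_coe.2 (Finset.mem_univ _))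
  rw [h1]
  apply Finset.sum_congr rfl
  intro b _
  have h2 : X.filter (fun x => x.1 = b) = (fib X b).map ⟨fun w => (b, w), fun w w' h => by
      simpa using h⟩ := by
    ext ⟨c, w⟩
    simp only [Finset.mem_filter, Finset.mem_map, mem_fib]
    constructor
    · rintro ⟨h, rfl⟩
      exact ⟨w, h, rfl⟩
    · rintro ⟨w', h, h'⟩
      cases h'
      exact ⟨h, rfl⟩
  rw [h2, Finset.card_map]

/-- the action on blocks -/
def pi (k : Z3) (a : Z3 → Z3) (b : B) : B := (b.1 + k, b.2 + a b.1)

lemma pi_inj (k : Z3) (a : Z3 → Z3) : Function.Injective (pi k a) := by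
  rintro ⟨u, v⟩ ⟨u', v'⟩ h
  simp only [pi, Prod.mk.injEq, add_left_inj] at h
  obtain ⟨rfl, h2⟩ := h
  simpa using h2

lemma pi_surj (k : Z3) (a : Z3 → Z3) : Function.Surjective (pi k a) := by
  rintro ⟨u, v⟩
  exact ⟨(u - k, v - a (u - k)), by simp [pi]⟩

/-- the map between blocks induced by `g` -/
def sg (g : Perm Om) (b : B) (w : V) : V := (g (b, w)).2

/-- `g` acts on the blocks by `π` -/
def Blk (g : Perm Om) (π : B → B) : Prop := ∀ b w, (g (b, w)).1 = π b

lemma Blk.eq {g : Perm Om} {π : B → B} (h : Blk g π) (b : B) (w : V) :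
    g (b, w) = (π b, sg g b w) := by
  rw [← h b w]; rfl

lemma sg_inj {g : Perm Om} {π : B → B} (h : Blk g π) (b : B) :
    Function.Injective (sg g b) := by
  intro w w' hw
  have : g (b, w) = g (b, w') := by rw [h.eq, h.eq, hw]
  simpa using g.injective this

lemma fib_map {g : Perm Om} {π : B → B} (h : Blk g π) (hπ : Function.Injective π)
    (X : Finset Om) (b : B) :
    fib (X.map g.toEmbedding) (π b) = (fib X b).image (sg g b) := by
  ext w
  rw [mem_fib, Finset.mem_map, Finset.mem_image]
  constructor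
  · rintro ⟨⟨c, w'⟩, hX, hc⟩
    simp only [Equiv.coe_toEmbedding] at hc
    rw [h.eq, Prod.mk.injEq] at hc
    obtain ⟨h1, h2⟩ := hc
    have := hπ h1
    subst this
    exact ⟨w', mem_fib.2 hX, h2⟩
  · rintro ⟨w', hw', rfl⟩
    exact ⟨(b, w'), mem_fib.1 hw', by simp [h.eq]⟩

lemma card_fib_map {g : Perm Om} {π : B → B} (h : Blk g π) (hπ : Function.Injective π)
    (X : Finset Om) (b : B) :
    (fib (X.map g.toEmbedding) (π b)).card = (fib X b).card := by
  rw [fib_map h hπ, Finset.card_image_of_injective _ (sg_inj h b)]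

/-- `g` is an element of `L` with value `x` -/
def HasVal (g : Perm Om) (x : Z3) : Prop :=
  ∃ (k : Z3) (a : Z3 → Z3) (β : B → Z3) (t : Z3),
    Blk g (pi k a) ∧
    (∀ b (P : Finset V), P.card = 2 → ty (P.image (sg g b)) = ty P + β b) ∧
    (∀ u, ∑ v, β (u, v) = t) ∧ x = t + ∑ u, a u

lemma hasVal_one : HasVal 1 0 := by
  refine ⟨0, 0, 0, 0, ?_, ?_, ?_, ?_⟩
  · intro b w; simp [pi]
  · intro b P _
    have : P.image (sg 1 b) = P := by
      have : sg 1 b = id := by ext w <;> simp [sg]
      rw [this, Finset.image_id]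
    rw [this]; simp
  · intro u; simp
  · simp

lemma HasVal.mul {g h : Perm Om} {x y : Z3} (hg : HasVal g x) (hh : HasVal h y) :
    HasVal (g * h) (x + y) := by
  obtain ⟨k, a, β, t, h1, h2, h3, rfl⟩ := hg
  obtain ⟨k', a', β', t', h1', h2', h3', rfl⟩ := hh
  have hsg : ∀ b, sg (g * h) b = sg g (pi k' a' b) ∘ sg h b := by
    intro b
    ext1 w
    show ((g * h) (b, w)).2 = _
    rw [Perm.mul_apply, h1'.eq, h1.eq]
    rfl
  refine ⟨k + k', fun u => a (u + k') + a' u, fun b => β (pi k' a' b) + β' b, t + t',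
    ?_, ?_, ?_, ?_⟩
  · intro b w
    rw [Perm.mul_apply, h1'.eq, h1.eq]
    simp only [pi, Prod.mk.injEq]
    constructor <;> ring
  · intro b P hP
    rw [hsg, ← Finset.image_image, h2, h2' b P hP]
    · ring
    · rw [Finset.card_image_of_injective _ (sg_inj h1' b), hP]
  · intro u
    rw [Finset.sum_add_distrib, h3' u]
    congr 1
    rw [← h3 (u + k')]
    simp only [pi]
    exact Fintype.sum_equiv (Equiv.addRight (a' u)) _ _ (fun v => rfl)
  · rw [Finset.sum_add_distrib]
    have : ∑ u, a (u + k') = ∑ u, a u :=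
      Fintype.sum_equiv (Equiv.addRight k') _ _ (fun v => rfl)
    rw [this]; ring

lemma HasVal.uniq {g : Perm Om} {x y : Z3} (hg : HasVal g x) (hh : HasVal g y) : x = y := by
  obtain ⟨k, a, β, t, h1, h2, h3, rfl⟩ := hg
  obtain ⟨k', a', β', t', h1', h2', h3', rfl⟩ := hh
  have ha : ∀ u, a u = a' u := by
    intro u
    have := (h1 (u, 0) 0).symm.trans (h1' (u, 0) 0)
    simp only [pi, Prod.mk.injEq, zero_add] at this
    exact this.2
  have hβ : ∀ b, β b = β' b := by
    intro b
    obtain ⟨P, hP, -⟩ := exPair 0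
    exact add_left_cancel ((h2 b P hP).symm.trans (h2' b P hP))
  have ht : t = t' := by
    rw [← h3 0, ← h3' 0]
    exact Finset.sum_congr rfl (fun v _ => hβ _)
  rw [ht]
  congr 1
  exact Finset.sum_congr rfl (fun v _ => ha _)

lemma HasVal.pow {g : Perm Om} {x : Z3} (hg : HasVal g x) (n : ℕ) :
    HasVal (g ^ n) (n * x) := by
  induction n with
  | zero => simpa using hasVal_one
  | succ n ih =>
    rw [pow_succ]
    have := ih.mul hg
    have h2 : (n : Z3) * x + x = ((n + 1 : ℕ) : Z3) * x := by push_cast; ring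
    rwa [h2] at this

lemma HasVal.inv {g : Perm Om} {x : Z3} (hg : HasVal g x) : HasVal g⁻¹ (-x) := by
  have hinv : g⁻¹ = g ^ (orderOf g - 1) := by
    have hpos : 0 < orderOf g := orderOf_pos g
    apply inv_eq_of_mul_eq_one_right
    rw [← pow_succ', Nat.sub_add_cancel hpos, pow_orderOf_eq_one]
  have h1 := hg.pow (orderOf g - 1)
  rw [← hinv] at h1
  have h2 := hg.mul h1
  rw [mul_inv_cancel] at h2
  have h3 := h2.uniq hasVal_one
  have : ((orderOf g - 1 : ℕ) : Z3) * x = -x := by
    rw [eq_neg_iff_add_eq_zero, add_comm]; exact h3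
  rwa [this] at h1

/-- the group `L` of order `3 |G|` -/
def L : Subgroup (Perm Om) where
  carrier := {g | ∃ x, HasVal g x}
  mul_mem' := by
    rintro g h ⟨x, hx⟩ ⟨y, hy⟩
    exact ⟨_, hx.mul hy⟩
  one_mem' := ⟨0, hasVal_one⟩
  inv_mem' := by
    rintro g ⟨x, hx⟩
    exact ⟨_, hx.inv⟩

/-- the group `G` -/
def G : Subgroup (Perm Om) where
  carrier := {g | HasVal g 0}
  mul_mem' := by
    intro g h hx hy
    have := HasVal.mul hx hy
    rwa [add_zero] at this
  one_mem' := hasVal_one
  inv_mem' := by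
    intro g hx
    have := HasVal.inv hx
    rwa [neg_zero] at this

lemma G_le_L : G ≤ L := fun _ hg => ⟨0, hg⟩

/-- a permutation of `Om` given by data -/
def mk (k : Z3) (a : Z3 → Z3) (s : B → Perm V) : Perm Om where
  toFun x := (pi k a x.1, s x.1 x.2)
  invFun y := ((y.1.1 - k, y.1.2 - a (y.1.1 - k)), (s (y.1.1 - k, y.1.2 - a (y.1.1 - k))).symm y.2)
  left_inv := by
    rintro ⟨⟨u, v⟩, w⟩
    simp [pi]
  right_inv := by
    rintro ⟨⟨u, v⟩, w⟩
    simp [pi]

lemma mk_blk (k : Z3) (a : Z3 → Z3) (s : B → Perm V) : Blk (mk k a s) (pi k a) :=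
  fun _ _ => rfl

lemma mk_sg (k : Z3) (a : Z3 → Z3) (s : B → Perm V) (b : B) : sg (mk k a s) b = s b := rfl

lemma aff_zero : ∀ w, aff 0 0 w = w := by decide

/-- every subset of `Om` is stabilised by an element of value `1` -/
lemma exists_stab (X : Finset Om) : ∃ h, HasVal h 1 ∧ X.map h.toEmbedding = X := by
  classical
  by_cases hX : ∃ u, ∀ v, (fib X (u, v)).card = 2
  · obtain ⟨u, hu⟩ := hX
    have hc : ∀ v, ∃ c : V, (fib X (u, v)).image
        (aff (ty (fib X (u, v + 1)) - ty (fib X (u, v))) c) = fib X (u, v + 1) :=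
      fun v => mapPair _ _ (hu v) (hu (v + 1))
    choose c hc using hc
    set a : Z3 → Z3 := fun u' => if u' = u then 1 else 0 with ha
    set β : B → Z3 := fun b =>
      if b.1 = u then ty (fib X (u, b.2 + 1)) - ty (fib X (u, b.2)) else 0 with hβ
    set s : B → Perm V := fun b => aff (β b) (if b.1 = u then c b.2 else 0) with hs
    refine ⟨mk 0 a s, ⟨0, a, β, 0, mk_blk _ _ _, ?_, ?_, ?_⟩, ?_⟩
    · intro b P hP
      rw [mk_sg, hs]
      exact ty_aff _ _ _ hP
    · intro u'
      by_cases h : u' = u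
      · subst h
        simp only [hβ, if_true]
        rw [Finset.sum_sub_distrib, sub_eq_zero]
        exact Fintype.sum_equiv (Equiv.addRight 1) _ _ (fun v => rfl)
      · simp [hβ, h]
    · simp [ha]
    · apply ext_fib
      intro b
      obtain ⟨⟨u', v⟩, rfl⟩ := pi_surj 0 a b
      rw [fib_map (mk_blk 0 a s) (pi_inj 0 a), mk_sg]
      by_cases h : u' = u
      · subst h
        simp only [hs, hβ, pi, ha, if_true, add_zero]
        exact hc v
      · simp only [hs, hβ, pi, ha, if_neg h, add_zero]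
        have : ⇑(aff 0 0) = id := by ext1 w; exact aff_zero w
        rw [this, Finset.image_id]
  · push Not at hX
    choose v hv using hX
    have hc : ∀ u, ∃ c : V, (fib X (u, v u)).image (aff 1 c) = fib X (u, v u) :=
      fun u => fixRot _ (hv u)
    choose c hc using hc
    set β : B → Z3 := fun b => if b.2 = v b.1 then 1 else 0 with hβ
    set s : B → Perm V := fun b => aff (β b) (if b.2 = v b.1 then c b.1 else 0) with hs
    refine ⟨mk 0 0 s, ⟨0, 0, β, 1, mk_blk _ _ _, ?_, ?_, ?_⟩, ?_⟩
    · intro b P hP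
      rw [mk_sg, hs]
      exact ty_aff _ _ _ hP
    · intro u
      simp [hβ]
    · simp
    · apply ext_fib
      intro b
      obtain ⟨⟨u, v'⟩, rfl⟩ := pi_surj 0 0 b
      rw [fib_map (mk_blk 0 0 s) (pi_inj 0 0), mk_sg]
      by_cases h : v' = v u
      · subst h
        simp only [hs, hβ, pi, if_true, add_zero, Pi.zero_apply]
        exact hc u
      · simp only [hs, hβ, pi, if_neg h, add_zero, Pi.zero_apply]
        have : ⇑(aff 0 0) = id := by ext1 w; exact aff_zero w
        rw [this, Finset.image_id]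

/-- `G` and `L` have the same orbits on the power set -/
lemma same_orbit {g : Perm Om} (hg : g ∈ L) (X : Finset Om) :
    ∃ g' ∈ G, X.map g'.toEmbedding = X.map g.toEmbedding := by
  obtain ⟨x, hx⟩ := hg
  obtain ⟨h, hh, hX⟩ := exists_stab X
  have hpow : ∀ n : ℕ, X.map (h ^ n).toEmbedding = X := by
    intro n
    induction n with
    | zero => rw [pow_zero, map_one_eq]
    | succ n ih =>
      have h2 : (h ^ (n + 1)).toEmbedding = (h ^ n).toEmbedding.trans h.toEmbedding := by
        ext y <;> simp [pow_succ']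
      rw [h2, ← Finset.map_map, ih, hX]
  refine ⟨g * h ^ ((-x).val), ?_, ?_⟩
  · have h1 := hx.mul (hh.pow ((-x).val))
    have h2 : x + ((-x).val : Z3) * 1 = 0 := by
      rw [ZMod.natCast_zmod_val]; ring
    rw [h2] at h1
    exact h1
  · have h2 : (g * h ^ ((-x).val)).toEmbedding =
        (h ^ ((-x).val)).toEmbedding.trans g.toEmbedding := by
      ext y <;> simp
    rw [h2, ← Finset.map_map, hpow]

lemma L_le_of_G_le (R : Set (Finset Om)) (h : G ≤ relGroup R) : L ≤ relGroup R := by
  intro g hg X hX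
  obtain ⟨g', hg', he⟩ := same_orbit hg X
  rw [← he]
  exact h hg' X hX

/-! ### A relation whose invariance group is `L` -/

/-- `X` is one block -/
def PF (X : Finset Om) : Prop := ∃ b, fib X b = univ ∧ ∀ c, c ≠ b → fib X c = ∅

/-- `X` is one block `b` plus `j` points of a block `c` with `E b c` -/
def PE (E : B → B → Prop) (j : ℕ) (X : Finset Om) : Prop :=
  ∃ b c, E b c ∧ fib X b = univ ∧ (fib X c).card = j ∧ ∀ d, d ≠ b → d ≠ c → fib X d = ∅

/-- `X` consists of pairs in the blocks of the classes `u` and `u + 1`, with type sums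
differing by `δ`, and is constant equal to `F` in the blocks of the class `u + 2` -/
def PT (F : Finset V) (δ : Z3) (X : Finset Om) : Prop :=
  ∃ u, (∀ v, fib X (u + 2, v) = F) ∧ (∀ v, (fib X (u, v)).card = 2) ∧
    (∀ v, (fib X (u + 1, v)).card = 2) ∧
    ∑ v, ty (fib X (u, v)) = ∑ v, ty (fib X (u + 1, v)) + δ

def E1 (b c : B) : Prop := c = (b.1, b.2 + 1)
def E2 (b c : B) : Prop := c.1 = b.1 + 1

/-- the relation -/
def Rel : Set (Finset Om) :=
  {X | (X.card = 4 ∧ PF X) ∨ (X.card = 5 ∧ PE E1 1 X) ∨ (X.card = 6 ∧ PE E2 2 X) ∨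
    (X.card = 12 ∧ PT ∅ 1 X) ∨ (X.card = 24 ∧ PT univ 0 X)}

lemma image_sg_univ {g : Perm Om} {π : B → B} (h : Blk g π) (b : B) :
    (univ : Finset V).image (sg g b) = univ :=
  Finset.image_univ_of_surjective (Finite.surjective_of_injective (sg_inj h b))

lemma PF_map {g : Perm Om} {x : Z3} (hg : HasVal g x) {X : Finset Om} (hX : PF X) :
    PF (X.map g.toEmbedding) := by
  obtain ⟨k, a, β, t, h1, h2, h3, rfl⟩ := hg
  obtain ⟨b, hb, hb'⟩ := hX
  refine ⟨pi k a b, ?_, ?_⟩
  · rw [fib_map h1 (pi_inj k a), hb, image_sg_univ h1]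
  · intro c hc
    obtain ⟨c, rfl⟩ := pi_surj k a c
    rw [fib_map h1 (pi_inj k a), hb' c (fun h => hc (by rw [h])), Finset.image_empty]

lemma PE_map {E : B → B → Prop} (hE : ∀ k a b c, E b c → E (pi k a b) (pi k a c)) {j : ℕ}
    {g : Perm Om} {x : Z3} (hg : HasVal g x) {X : Finset Om} (hX : PE E j X) :
    PE E j (X.map g.toEmbedding) := by
  obtain ⟨k, a, β, t, h1, h2, h3, rfl⟩ := hg
  obtain ⟨b, c, hbc, hb, hc, hd⟩ := hX
  refine ⟨pi k a b, pi k a c, hE _ _ _ _ hbc, ?_, ?_, ?_⟩
  · rw [fib_map h1 (pi_inj k a), hb, image_sg_univ h1]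
  · rw [card_fib_map h1 (pi_inj k a), hc]
  · intro d hdb hdc
    obtain ⟨d, rfl⟩ := pi_surj k a d
    rw [fib_map h1 (pi_inj k a), hd d (fun h => hdb (by rw [h])) (fun h => hdc (by rw [h])),
      Finset.image_empty]

lemma PT_map {F : Finset V} (hF : ∀ f : V → V, Function.Injective f → F.image f = F) {δ : Z3}
    {g : Perm Om} {x : Z3} (hg : HasVal g x) {X : Finset Om} (hX : PT F δ X) :
    PT F δ (X.map g.toEmbedding) := by
  obtain ⟨k, a, β, t, h1, h2, h3, rfl⟩ := hg
  obtain ⟨u, hu2, hu, hu1, hs⟩ := hX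
  have key : ∀ u', (∀ v, (fib X (u', v)).card = 2) →
      ∑ v, ty (fib (X.map g.toEmbedding) (u' + k, v)) = ∑ v, ty (fib X (u', v)) + t := by
    intro u' hu'
    have e1 : ∑ v, ty (fib (X.map g.toEmbedding) (u' + k, v)) =
        ∑ v, ty (fib (X.map g.toEmbedding) (pi k a (u', v))) :=
      (Fintype.sum_equiv (Equiv.addRight (a u')) _ _ (fun v => rfl)).symm
    rw [e1, ← h3 u', ← Finset.sum_add_distrib]
    refine Finset.sum_congr rfl (fun v _ => ?_)
    rw [fib_map h1 (pi_inj k a), h2 _ _ (hu' v)]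
  have keyc : ∀ u', (∀ v, (fib X (u', v)).card = 2) →
      ∀ v, (fib (X.map g.toEmbedding) (u' + k, v)).card = 2 := by
    intro u' hu' v
    have : (u' + k, v) = pi k a (u', v - a u') := by simp [pi]
    rw [this, card_fib_map h1 (pi_inj k a), hu']
  refine ⟨u + k, ?_, keyc u hu, ?_, ?_⟩
  · intro v
    have : (u + k + 2, v) = pi k a (u + 2, v - a (u + 2)) := by
      simp only [pi, Prod.mk.injEq, sub_add_cancel, and_true]; ring
    rw [this, fib_map h1 (pi_inj k a), hu2, hF _ (sg_inj h1 _)]
  · have := keyc (u + 1) hu1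
    intro v
    have h4 := this v
    rwa [show u + 1 + k = u + k + 1 by ring] at h4
  · rw [key u hu, hs]
    have := key (u + 1) hu1
    rw [show u + 1 + k = u + k + 1 by ring] at this
    rw [this]; ring

lemma L_le_Rel : L ≤ relGroup Rel := by
  rintro g ⟨x, hg⟩ X hX
  have hc : (X.map g.toEmbedding).card = X.card := Finset.card_map _
  rcases hX with ⟨h, h'⟩ | ⟨h, h'⟩ | ⟨h, h'⟩ | ⟨h, h'⟩ | ⟨h, h'⟩
  · exact Or.inl ⟨hc.trans h, PF_map hg h'⟩
  · refine Or.inr (Or.inl ⟨hc.trans h, PE_map ?_ hg h'⟩)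
    rintro k a ⟨b1, b2⟩ c h
    simp only [E1] at h ⊢
    subst h
    simp only [pi, Prod.mk.injEq, true_and]; ring
  · refine Or.inr (Or.inr (Or.inl ⟨hc.trans h, PE_map ?_ hg h'⟩))
    intro k a b c h
    simp only [E2, pi] at h ⊢
    rw [h]; ring
  · exact Or.inr (Or.inr (Or.inr (Or.inl ⟨hc.trans h,
      PT_map (fun f _ => Finset.image_empty f) hg h'⟩)))
  · exact Or.inr (Or.inr (Or.inr (Or.inr ⟨hc.trans h, PT_map (fun f hf =>
      Finset.image_univ_of_surjective (Finite.surjective_of_injective hf)) hg h'⟩)))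

/-- the set with prescribed fibres -/
def mkS (F : B → Finset V) : Finset Om := univ.filter (fun x => x.2 ∈ F x.1)

lemma fib_mkS (F : B → Finset V) (b : B) : fib (mkS F) b = F b := by
  ext w
  simp [fib, mkS]

lemma card_mkS (F : B → Finset V) : (mkS F).card = ∑ b, (F b).card := by
  rw [card_fib]
  exact Finset.sum_congr rfl (fun b _ => by rw [fib_mkS])

lemma card_univ_V : (univ : Finset V).card = 4 := by decide

lemma exists_blk {g : Perm Om}
    (hPF : ∀ X : Finset Om, X.card = 4 → PF X → PF (X.map g.toEmbedding)) :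
    ∃ π : B → B, Blk g π ∧ Function.Injective π := by
  classical
  have h1 : ∀ b : B, ∃ b' : B, (∀ w, (g (b, w)).1 = b') ∧ ∀ w', ∃ w, g (b, w) = (b', w') := by
    intro b
    set F : B → Finset V := fun c => if c = b then univ else ∅ with hF
    have hcard : (mkS F).card = 4 := by
      rw [card_mkS]
      have : ∀ c, (F c).card = if c = b then 4 else 0 := by
        intro c
        by_cases h : c = b <;> simp [hF, h]
      simp only [this, Finset.sum_ite_eq', Finset.mem_univ, if_true]
    have hpf : PF (mkS F) := by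
      refine ⟨b, ?_, ?_⟩
      · rw [fib_mkS]; simp [hF]
      · intro c hc; rw [fib_mkS]; simp [hF, hc]
    obtain ⟨b', hb', hc'⟩ := hPF _ hcard hpf
    refine ⟨b', ?_, ?_⟩
    · intro w
      by_contra hne
      have h2 := hc' _ hne
      have h3 : (g (b, w)).2 ∈ fib ((mkS F).map g.toEmbedding) (g (b, w)).1 := by
        rw [mem_fib, Finset.mem_map]
        refine ⟨(b, w), ?_, rfl⟩
        rw [← mem_fib, fib_mkS]; simp [hF]
      rw [h2] at h3
      simp at h3
    · intro w'
      have h3 : w' ∈ fib ((mkS F).map g.toEmbedding) b' := by rw [hb']; exact Finset.mem_univ _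
      rw [mem_fib, Finset.mem_map] at h3
      obtain ⟨⟨c, w⟩, hcw, he⟩ := h3
      rw [← mem_fib, fib_mkS] at hcw
      have : c = b := by
        by_contra h
        simp [hF, h] at hcw
      subst this
      exact ⟨w, he⟩
  choose π hπ hπ' using h1
  refine ⟨π, fun b w => hπ b w, ?_⟩
  intro b c hbc
  obtain ⟨w, hw⟩ := hπ' b (g (c, 0)).2
  have : g (c, 0) = g (b, w) := by
    rw [hw, hbc, ← hπ c 0]
  have := g.injective this
  simp only [Prod.mk.injEq] at this
  exact this.1.symm

lemma exists_sub (j : ℕ) (hj : j ≤ 4) : ∃ T : Finset V, T.card = j := by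
  obtain ⟨T, -, hT⟩ := Finset.exists_subset_card_eq (s := (univ : Finset V)) (n := j)
    (by rw [card_univ_V]; exact hj)
  exact ⟨T, hT⟩

lemma edge_map {g : Perm Om} {π : B → B} (hb : Blk g π) (hπ : Function.Injective π)
    {E : B → B → Prop} {j : ℕ} (hj0 : 0 < j) (hj : j < 4)
    (hE : ∀ X : Finset Om, X.card = 4 + j → PE E j X → PE E j (X.map g.toEmbedding))
    {b c : B} (hne : b ≠ c) (hbc : E b c) : E (π b) (π c) := by
  classical
  obtain ⟨T, hT⟩ := exists_sub j hj.le
  set F : B → Finset V := fun d => if d = b then univ else if d = c then T else ∅ with hF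
  have hFb : F b = univ := by simp [hF]
  have hFc : F c = T := by simp [hF, hne.symm]
  have hFd : ∀ d, d ≠ b → d ≠ c → F d = ∅ := by intro d h1 h2; simp [hF, h1, h2]
  have hcard : (mkS F).card = 4 + j := by
    rw [card_mkS]
    have : ∀ d, (F d).card = (if d = b then 4 else 0) + (if d = c then j else 0) := by
      intro d
      by_cases h : d = b
      · subst h; simp [hFb, hne]
      · by_cases h' : d = c
        · subst h'; simp [hFc, h, hT]
        · simp [hFd d h h', h, h']
    simp only [this, Finset.sum_add_distrib, Finset.sum_ite_eq', Finset.mem_univ, if_true]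
  have hpe : PE E j (mkS F) := by
    refine ⟨b, c, hbc, ?_, ?_, ?_⟩
    · rw [fib_mkS, hFb]
    · rw [fib_mkS, hFc, hT]
    · intro d h1 h2; rw [fib_mkS, hFd d h1 h2]
  obtain ⟨b1, c1, h1, h2, h3, h4⟩ := hE _ hcard hpe
  have e1 : (fib ((mkS F).map g.toEmbedding) (π b)).card = 4 := by
    rw [card_fib_map hb hπ, fib_mkS, hFb, card_univ_V]
  have e2 : (fib ((mkS F).map g.toEmbedding) (π c)).card = j := by
    rw [card_fib_map hb hπ, fib_mkS, hFc, hT]
  have hb1 : π b = b1 := by
    by_contra h
    by_cases h' : π b = c1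
    · rw [h'] at e1; omega
    · rw [h4 _ h h', Finset.card_empty] at e1; omega
  have hc1 : π c = c1 := by
    by_contra h
    by_cases h' : π c = b1
    · exact hne (hπ (hb1.trans h'.symm))
    · rw [h4 _ h' h, Finset.card_empty] at e2; omega
  rw [hb1, hc1]; exact h1

lemma sum_Z3 {M : Type*} [AddCommMonoid M] (f : Z3 → M) (u : Z3) :
    ∑ v, f v = f u + f (u + 1) + f (u + 2) := by
  have h : ∑ v, f v = ∑ v, f (v + u) :=
    (Fintype.sum_equiv (Equiv.addRight u) _ _ (fun v => rfl)).symm
  rw [h]
  have : (univ : Finset Z3) = {0, 1, 2} := by decide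
  rw [this, Finset.sum_insert (by decide), Finset.sum_insert (by decide),
    Finset.sum_singleton, zero_add, add_comm 1 u, add_comm 2 u, add_assoc]

lemma add_one_ne : ∀ v : Z3, v + 1 ≠ v := by decide
lemma add_two_ne : ∀ v : Z3, v + 2 ≠ v := by decide

lemma Z3_cases (u u' : Z3) : u' = u ∨ u' = u + 1 ∨ u' = u + 2 := by
  revert u u'; decide

/-- the sum of the types of the images of the pairs `P v`, placed in the class `u` -/
def FS (g : Perm Om) (u : Z3) (P : Z3 → Finset V) : Z3 :=
  ∑ v, ty ((P v).image (sg g (u, v)))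

lemma type_sum {g : Perm Om} {k : Z3} {a : Z3 → Z3} (hb : Blk g (pi k a))
    {F0 : Finset V} (hF0 : F0.card ≠ 2) {δ : Z3}
    (hT : ∀ X : Finset Om, X.card = 12 + 3 * F0.card → PT F0 δ X →
      PT F0 δ (X.map g.toEmbedding))
    (u : Z3) (P P' : Z3 → Finset V) (hP : ∀ v, (P v).card = 2) (hP' : ∀ v, (P' v).card = 2)
    (hs : ∑ v, ty (P v) = ∑ v, ty (P' v) + δ) : FS g u P = FS g (u + 1) P' + δ := by
  classical
  have n1 : u + 1 ≠ u := by revert u; decide
  have n2 : u + 2 ≠ u := by revert u; decide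
  have n3 : u + 2 ≠ u + 1 := by revert u; decide
  set F : B → Finset V := fun c =>
    if c.1 = u then P c.2 else if c.1 = u + 1 then P' c.2 else F0 with hF
  have f1 : ∀ v, F (u, v) = P v := by intro v; simp [hF]
  have f2 : ∀ v, F (u + 1, v) = P' v := by intro v; simp [hF]
  have f3 : ∀ v, F (u + 2, v) = F0 := by intro v; simp [hF, n2, n3]
  have hcard : (mkS F).card = 12 + 3 * F0.card := by
    rw [card_mkS, Fintype.sum_prod_type, sum_Z3 _ u]
    simp only [f1, f2, f3, hP, hP', Finset.sum_const, Finset.card_univ, ZMod.card]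
    simp only [smul_eq_mul]
  have hpt : PT F0 δ (mkS F) := by
    refine ⟨u, ?_, ?_, ?_, ?_⟩
    · intro v; rw [fib_mkS, f3]
    · intro v; rw [fib_mkS, f1, hP]
    · intro v; rw [fib_mkS, f2, hP']
    · simp only [fib_mkS, f1, f2, hs]
  obtain ⟨u1, h1, h2, h3, h4⟩ := hT _ hcard hpt
  have hu1 : u1 = u + k := by
    obtain ⟨⟨u', v'⟩, hu'⟩ := pi_surj k a (u1 + 2, 0)
    have e1 : (fib ((mkS F).map g.toEmbedding) (u1 + 2, 0)).card = F0.card := by rw [h1]
    rw [← hu', card_fib_map hb (pi_inj k a), fib_mkS] at e1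
    have e2 : u' + k = u1 + 2 := congrArg Prod.fst hu'
    rcases Z3_cases u u' with h | h | h
    · subst h; rw [f1, hP] at e1; exact absurd e1.symm hF0
    · subst h; rw [f2, hP'] at e1; exact absurd e1.symm hF0
    · subst h
      have : u + k + 2 = u1 + 2 := by rw [← e2]; ring
      exact (add_right_cancel this).symm
  subst hu1
  have key : ∀ u', ∑ v, ty (fib ((mkS F).map g.toEmbedding) (u' + k, v)) =
      ∑ v, ty ((F (u', v)).image (sg g (u', v))) := by
    intro u'
    have e1 : ∑ v, ty (fib ((mkS F).map g.toEmbedding) (u' + k, v)) =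
        ∑ v, ty (fib ((mkS F).map g.toEmbedding) (pi k a (u', v))) :=
      (Fintype.sum_equiv (Equiv.addRight (a u')) _ _ (fun v => rfl)).symm
    rw [e1]
    refine Finset.sum_congr rfl (fun v _ => ?_)
    rw [fib_map hb (pi_inj k a), fib_mkS]
  rw [key u, show u + k + 1 = u + 1 + k by ring, key (u + 1)] at h4
  simp only [f1, f2] at h4
  exact h4

lemma Rel_le_L : relGroup Rel ≤ L := by
  classical
  intro g hg
  have hc : ∀ X : Finset Om, (X.map g.toEmbedding).card = X.card :=
    fun X => Finset.card_map _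
  have hPF : ∀ X : Finset Om, X.card = 4 → PF X → PF (X.map g.toEmbedding) := by
    intro X h1 h2
    have h3 := hc X
    rcases hg X (Or.inl ⟨h1, h2⟩) with h | h | h | h | h
    · exact h.2
    all_goals (exfalso; have := h.1; omega)
  have hE1 : ∀ X : Finset Om, X.card = 4 + 1 → PE E1 1 X → PE E1 1 (X.map g.toEmbedding) := by
    intro X h1 h2
    have h3 := hc X
    rcases hg X (Or.inr (Or.inl ⟨h1, h2⟩)) with h | h | h | h | h
    on_goal 2 => exact h.2
    all_goals (exfalso; have := h.1; omega)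
  have hE2 : ∀ X : Finset Om, X.card = 4 + 2 → PE E2 2 X → PE E2 2 (X.map g.toEmbedding) := by
    intro X h1 h2
    have h3 := hc X
    rcases hg X (Or.inr (Or.inr (Or.inl ⟨h1, h2⟩))) with h | h | h | h | h
    on_goal 3 => exact h.2
    all_goals (exfalso; have := h.1; omega)
  have hT0 : ∀ X : Finset Om, X.card = 12 + 3 * (∅ : Finset V).card → PT ∅ 1 X →
      PT ∅ 1 (X.map g.toEmbedding) := by
    intro X h1 h2
    have h3 := hc X
    rw [Finset.card_empty] at h1
    rcases hg X (Or.inr (Or.inr (Or.inr (Or.inl ⟨h1, h2⟩)))) with h | h | h | h | h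
    on_goal 4 => exact h.2
    all_goals (exfalso; have := h.1; omega)
  have hT1 : ∀ X : Finset Om, X.card = 12 + 3 * (univ : Finset V).card → PT univ 0 X →
      PT univ 0 (X.map g.toEmbedding) := by
    intro X h1 h2
    have h3 := hc X
    rw [card_univ_V] at h1
    rcases hg X (Or.inr (Or.inr (Or.inr (Or.inr ⟨h1, h2⟩)))) with h | h | h | h | h
    on_goal 5 => exact h.2
    all_goals (exfalso; have := h.1; omega)
  obtain ⟨π, hπ, hinj⟩ := exists_blk hPF
  have q1 : ∀ u v, π (u, v + 1) = ((π (u, v)).1, (π (u, v)).2 + 1) := by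
    intro u v
    refine edge_map hπ hinj (by norm_num) (by norm_num) hE1 (b := (u, v)) (c := (u, v + 1)) ?_ rfl
    intro h
    simp at h
  have q2 : ∀ u v v', (π (u + 1, v')).1 = (π (u, v)).1 + 1 := by
    intro u v v'
    refine edge_map hπ hinj (by norm_num) (by norm_num) hE2 (b := (u, v)) (c := (u + 1, v'))
      ?_ rfl
    intro h
    simp at h
  set k : Z3 := (π (0, 0)).1 with hk
  set a : Z3 → Z3 := fun u => (π (u, 0)).2 with ha
  have hpi : π = pi k a := by
    have r1 : ∀ u v, (π (u, v)).1 = u + k := by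
      intro u v
      have s1 : ∀ v', (π (1, v')).1 = k + 1 := by
        intro v'
        have := q2 0 0 v'
        rwa [zero_add] at this
      have s2 : ∀ v', (π (2, v')).1 = k + 2 := by
        intro v'
        have := q2 1 0 v'
        rw [s1, add_assoc] at this
        exact this
      have s0 : ∀ v', (π (0, v')).1 = k := by
        intro v'
        have := q2 2 0 v'
        rw [s2, add_assoc, show (2 : Z3) + 1 = 0 by decide, add_zero] at this
        exact this
      rcases Z3_cases 0 u with h | h | h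
      · rw [h, s0, zero_add]
      · rw [h, zero_add, s1, add_comm]
      · rw [h, zero_add, s2, add_comm]
    have r2 : ∀ u v, (π (u, v)).2 = v + a u := by
      intro u v
      have s1 : (π (u, 1)).2 = a u + 1 := by
        have := q1 u 0
        rw [zero_add] at this
        rw [this]
      have s2 : (π (u, 2)).2 = a u + 2 := by
        have := q1 u 1
        rw [show (1 : Z3) + 1 = 2 by decide] at this
        rw [this]
        show (π (u, 1)).2 + 1 = a u + 2
        rw [s1, add_assoc, show (1 : Z3) + 1 = 2 by decide]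
      rcases Z3_cases 0 v with h | h | h
      · rw [h, zero_add]
      · rw [h, zero_add, s1, add_comm]
      · rw [h, zero_add, s2, add_comm]
    funext b
    obtain ⟨u, v⟩ := b
    exact Prod.ext (r1 u v) (r2 u v)
  rw [hpi] at hπ
  have c0 : (∅ : Finset V).card ≠ 2 := by simp
  have c1 : (univ : Finset V).card ≠ 2 := by rw [card_univ_V]; norm_num
  have T0 := fun u P P' hP hP' hs => type_sum hπ c0 hT0 u P P' hP hP' hs
  have T1 := fun u P P' hP hP' hs => type_sum hπ c1 hT1 u P P' hP hP' hs
  have up : ∀ u (P P' : Z3 → Finset V), (∀ v, (P v).card = 2) → (∀ v, (P' v).card = 2) →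
      ∑ v, ty (P v) = ∑ v, ty (P' v) + 1 → FS g u P = FS g u P' + 1 := by
    intro u P P' hP hP' hs
    rw [T0 u P P' hP hP' hs, T1 u P' P' hP' hP' (by rw [add_zero]), add_zero]
  have eqs : ∀ u (P P' : Z3 → Finset V), (∀ v, (P v).card = 2) → (∀ v, (P' v).card = 2) →
      FS g u P - ∑ v, ty (P v) = FS g u P' - ∑ v, ty (P' v) := by
    intro u P P' hP hP'
    rcases Z3_cases (∑ v, ty (P' v)) (∑ v, ty (P v)) with h | h | h
    · have e1 := T1 u P P' hP hP' (by rw [h, add_zero])
      have e2 := T1 u P' P' hP' hP' (by rw [add_zero])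
      rw [e1, e2, h]
    · rw [up u P P' hP hP' h, h]; ring
    · have h' : ∑ v, ty (P' v) = ∑ v, ty (P v) + 1 := by
        rw [h, add_assoc, show (2 : Z3) + 1 = 0 by decide, add_zero]
      rw [up u P' P hP' hP h', h']; ring
  obtain ⟨P0, hP0, -⟩ := exPair 0
  set β : B → Z3 := fun b => ty (P0.image (sg g b)) - ty P0 with hβ
  have hrot : ∀ b (P : Finset V), P.card = 2 → ty (P.image (sg g b)) = ty P + β b := by
    rintro ⟨u, v⟩ P hP
    have hA : ∀ v', (Function.update (fun _ => P0) v P v' : Finset V).card = 2 := by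
      intro v'
      by_cases h : v' = v
      · subst h; simp [hP]
      · simp [Function.update_of_ne h, hP0]
    have e := eqs u (Function.update (fun _ => P0) v P) (fun _ => P0) hA (fun _ => hP0)
    have n1 : v + 1 ≠ v := add_one_ne v
    have n2 : v + 2 ≠ v := add_two_ne v
    unfold FS at e
    rw [sum_Z3 _ v, sum_Z3 _ v, sum_Z3 _ v, sum_Z3 _ v] at e
    simp only [Function.update_self, Function.update_of_ne n1, Function.update_of_ne n2] at e
    simp only [hβ]
    linear_combination e
  refine ⟨_, k, a, β, ∑ v, β (0, v), hπ, hrot, ?_, rfl⟩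
  have step : ∀ u, ∑ v, β (u, v) = ∑ v, β (u + 1, v) := by
    intro u
    have e := T1 u (fun _ => P0) (fun _ => P0) (fun _ => hP0) (fun _ => hP0) (by rw [add_zero])
    simp only [hβ, Finset.sum_sub_distrib]
    unfold FS at e
    rw [e, add_zero]
  intro u
  rcases Z3_cases 0 u with h | h | h
  · rw [h]
  · rw [h, ← step 0]
  · rw [h, show (0 : Z3) + 2 = 0 + 1 + 1 by decide, ← step (0 + 1), ← step 0]

lemma relGroup_Rel : relGroup Rel = L := le_antisymm Rel_le_L L_le_Rel

/-! ### The index of `G` in `L` -/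

/-- the value homomorphism -/
noncomputable def valHom : L →* Multiplicative Z3 where
  toFun g := Multiplicative.ofAdd (Classical.choose g.2)
  map_one' := by
    have h := (Classical.choose_spec (1 : L).2).uniq hasVal_one
    rw [h]; rfl
  map_mul' g h := by
    have h1 := (Classical.choose_spec (g * h).2).uniq
      ((Classical.choose_spec g.2).mul (Classical.choose_spec h.2))
    rw [h1]; rfl

lemma valHom_eq {g : L} {x : Z3} (h : HasVal g x) : valHom g = Multiplicative.ofAdd x := by
  have := (Classical.choose_spec g.2).uniq h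
  show Multiplicative.ofAdd (Classical.choose g.2) = _
  rw [this]

lemma ker_valHom : valHom.ker = G.subgroupOf L := by
  ext g
  rw [MonoidHom.mem_ker, Subgroup.mem_subgroupOf]
  constructor
  · intro h
    have h1 := Classical.choose_spec g.2
    have h2 : Classical.choose g.2 = 0 := h
    rw [h2] at h1
    exact h1
  · intro h
    rw [valHom_eq (x := 0) h]; rfl

lemma valHom_surj : Function.Surjective valHom := by
  intro x
  obtain ⟨h, hh, -⟩ := exists_stab ∅
  have h1 := hh.pow (Multiplicative.toAdd x).val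
  rw [ZMod.natCast_zmod_val, mul_one] at h1
  exact ⟨⟨_, ⟨_, h1⟩⟩, valHom_eq h1⟩

lemma relIndex_G_L : G.relIndex L = 3 := by
  rw [Subgroup.relIndex, ← ker_valHom, Subgroup.index_ker,
    MonoidHom.range_eq_top_of_surjective _ valHom_surj, Subgroup.card_top]
  rw [Nat.card_eq_fintype_card, Fintype.card_multiplicative, ZMod.card]

lemma relationIndex_G : relationIndex G = 3 := by
  have hmem : 3 ∈ {n | ∃ R : Set (Finset Om), G ≤ relGroup R ∧ G.relIndex (relGroup R) = n} :=
    ⟨Rel, by rw [relGroup_Rel]; exact G_le_L, by rw [relGroup_Rel, relIndex_G_L]⟩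
  apply le_antisymm (Nat.sInf_le hmem)
  refine le_csInf ⟨3, hmem⟩ ?_
  rintro n ⟨R, hR, rfl⟩
  have h1 := Subgroup.relIndex_mul_relIndex G L (relGroup R) G_le_L (L_le_of_G_le R hR)
  rw [relIndex_G_L] at h1
  have h2 : L.relIndex (relGroup R) ≠ 0 := Subgroup.FiniteIndex.index_ne_zero
  have h3 : 1 ≤ L.relIndex (relGroup R) := Nat.one_le_iff_ne_zero.2 h2
  omega

lemma imprimitive_G : Imprimitive G := by
  constructor
  · intro x y
    have hL : mk (y.1.1 - x.1.1) (fun _ => y.1.2 - x.1.2) (fun _ => aff 0 (y.2 - x.2)) ∈ L := by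
      refine ⟨_, _, _, 0, 0, mk_blk _ _ _, ?_, ?_, rfl⟩
      · intro b P hP
        rw [mk_sg, ty_aff _ _ _ hP]; rfl
      · intro u; simp
    obtain ⟨g', hg', he⟩ := same_orbit hL {x}
    refine ⟨g', hg', ?_⟩
    rw [Finset.map_singleton, Finset.map_singleton, Finset.singleton_inj] at he
    have h2 : g' x = mk (y.1.1 - x.1.1) (fun _ => y.1.2 - x.1.2)
        (fun _ => aff 0 (y.2 - x.2)) x := he
    rw [h2]
    show ((x.1.1 + (y.1.1 - x.1.1), x.1.2 + (y.1.2 - x.1.2)), x.2 + (y.2 - x.2)) = y
    rw [add_sub_cancel, add_sub_cancel, add_sub_cancel]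
  · refine ⟨Setoid.ker Prod.fst, ?_, ?_, ?_⟩
    · intro h
      have h1 : (Setoid.ker (Prod.fst : Om → B)) ((0, 0), (0, 0)) ((0, 0), (0, 1)) := rfl
      rw [h] at h1
      have h2 : (((0, 0), (0, 0)) : Om) = ((0, 0), (0, 1)) := h1
      revert h2
      decide
    · intro h
      have h1 : (⊤ : Setoid Om) ((0, 0), (0, 0)) ((0, 1), (0, 0)) := trivial
      rw [← h] at h1
      have h2 : ((0, 0) : B) = (0, 1) := h1
      revert h2
      decide
    · rintro g ⟨k, a, β, t, h1, -⟩ x y hxy
      have h2 : x.1 = y.1 := hxy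
      show (g x).1 = (g y).1
      have h3 := h1 x.1 x.2
      have h4 := h1 y.1 y.2
      rw [Prod.mk.eta] at h3 h4
      rw [h3, h4, h2]

/-- **The relation index of an imprimitive permutation group can be odd.** There is an
imprimitive permutation group `G` of degree `36` with `r(G) = 3`. -/
theorem result : ∃ (Ω : Type) (_ : Fintype Ω) (G : Subgroup (Perm Ω)),
    Fintype.card Ω = 36 ∧ Imprimitive G ∧ relationIndex G = 3 :=
  ⟨Om, inferInstance, G, by simp [Om, B, V, Z3], imprimitive_G, relationIndex_G⟩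

end Pool.Agent.Results.MP_670c4f_al.OddRelationIndex
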